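import Pool.Agent.W497.FS.Fact
import Pool.Agent.W497.FS.Nice
import Pool.Agent.W497.CC.Sum

/-! # The Singer-Hopf inequality for classes of nonpositively curved cubical manifolds -/

set_option autoImplicit false

namespace Pool.Agent.Results.MP_9d0d86_gt.CubicalManifolds

open Pool.Agent.W497.FS Pool.Agent.W497.CC

/-- every join factor `C` of `S`, of dimension `e - 1` say, has at most `3 e` vertices -/
def ThreePerRank {n : ℕ} (S : Finset (Finset (Fin n))) : Prop :=
  ∀ C : Finset (Fin n), IsFactor S C → ∃ F ∈ S, F ⊆ C ∧ C.card ≤ 3 * F.card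

/-- the link of every face `F` of even size `< 2 m` has a vertex `v` such that every 4-element face
of the link contains `v` or a neighbour of `v` -/
def HasNice (m : ℕ) {n : ℕ} (S : Finset (Finset (Fin n))) : Prop :=
  ∀ F ∈ S, Even F.card → F.card < 2 * m → ∃ v, v ∉ F ∧ insert v F ∈ S ∧
    ∀ G ∈ S, G.card = 4 → Disjoint G F → G ∪ F ∈ S → ∃ g ∈ G, ({v, g} : Finset (Fin n)) ∈ S

/-- The Singer-Hopf inequality for nonpositively curved cubical manifolds of dimension `2 m` whose
vertex links have at most `5 m + 3` vertices, or at most three vertices per unit of rank in each join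
factor, or nice vertices in the links of all faces of even size. -/
theorem result (k : Type) [Field k] (m : ℕ) (P : Type) [Fintype P] [PartialOrder P] (dim : P → ℕ)
    (hP : IsCubical P dim)
    (hL : ∀ v : P, dim v = 0 → ∃ (n : ℕ) (S : Finset (Finset (Fin n))),
      IsLink v S ∧ IsFlagSphere k (2 * m) S ∧
        (numVert S ≤ 5 * m + 3 ∨ ThreePerRank S ∨ HasNice m S)) :
    0 ≤ (-1) ^ m * chi P dim := by
  classical
  have h1 : ∀ v : P, ∃ p : Σ n : ℕ, Finset (Finset (Fin n)), dim v = 0 →
      IsLink v p.2 ∧ IsFlagSphere k (2 * m) p.2 ∧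
        (numVert p.2 ≤ 5 * m + 3 ∨ ThreePerRank p.2 ∨ HasNice m p.2) := by
    intro v
    by_cases hv : dim v = 0
    · obtain ⟨n, S, h⟩ := hL v hv
      exact ⟨⟨n, S⟩, fun _ => h⟩
    · exact ⟨⟨0, ∅⟩, fun h => absurd h hv⟩
  choose p hp using h1
  have h2 := chi_eq hP (fun v => (p v).1) (fun v => (p v).2) (fun v hv => (hp v hv).1)
    (fun v hv => by
      obtain ⟨r, hr⟩ := (hp v hv).2.1
      exact hr.1)
  have h3 : (0 : ℚ) ≤ (-1) ^ m * ((chi P dim : ℤ) : ℚ) := by
    rw [h2, Finset.mul_sum]
    refine Finset.sum_nonneg fun v hv => ?_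
    obtain ⟨-, hS, hc⟩ := hp v (Finset.mem_filter.mp hv).2
    rcases hc with hc | hc | hc
    · exact cd_two hS hc
    · exact cd_fac_one hS hc
    · exact cd_four hS hc
  exact_mod_cast h3

end Pool.Agent.Results.MP_9d0d86_gt.CubicalManifolds
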