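import Pool.Agent.W714.RP.Main

/-!
# The Singer-Hopf sign in dimension six under a lower sectional and an upper Ricci curvature bound

At a point of a Riemannian six-manifold where all sectional curvatures are at least `-κ` and the Ricci
curvature is at most `-3.53 κ` (for constant curvature `-κ` it is `-5 κ`; no upper bound of the
sectional curvature is assumed), the Gauss-Bonnet-Chern integrand is at most `-(1 / 100)` times its
absolute value for constant curvature `-κ`. So a closed six-manifold with such a metric has negative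
Euler characteristic. The number `3.53` cannot be replaced by `3.516`.

The proof (see `Pool/Agent/W714/RP/`) uses the formulas and the quadrature on the sphere of
`Pool/Agent/H933R2/Hopf/` (a development of the starting repository): the integrand is the average over
the unit vectors `x` of a combination of the ten monomials `s³, s² j, s j², j³, s tr J², s tr (J Ric),
j tr (J Ric), tr J³, tr (J² Ric), ∑ λ_a λ_b K (v_a, v_b)`, where `s` is the scalar curvature,
`j = Ric (x, x)` and `J` is the Jacobi operator of `x` with eigenvectors `v_a` and eigenvalues `λ_a`;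
this combination is positive at every `x` (mirrored to upper sectional and lower Ricci bounds), by an
explicit certificate in the ten variables `1 - λ_a`, `∑_b (1 - K (v_a, v_b))`.
-/

namespace Pool.Agent.Results.MP_9d0d86_gt.RicciPinchedDimSix

open Hopf6 MeasureTheory Pool.Agent.W714.HE Pool.Agent.W714.ES Pool.Agent.W714.RP

/-- Curvature tensors with `K ≥ -κ`, `Ric ≤ -3.53 κ` in dimension six. -/
theorem result :
    -- the pointwise bound
    (∀ (V : Type) [NormedAddCommGroup V] [InnerProductSpace ℝ V]
      (e : OrthonormalBasis (Fin 6) ℝ V) (R : V → V → V → V → ℝ), AlgCurv R →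
      ∀ κ : ℝ, 0 < κ → SecGE R (-κ) → RicLE e R (-(353 / 100 * κ)) →
        Hopf6.gbc e R ≤ -(1 / 100 * roundGB κ) ∧ Hopf6.gbc e R < 0) ∧
    -- the constant is nearly optimal
    (∀ κ : ℝ, 0 < κ →
      ∃ R : EuclideanSpace ℝ (Fin 6) → EuclideanSpace ℝ (Fin 6) → EuclideanSpace ℝ (Fin 6) →
          EuclideanSpace ℝ (Fin 6) → ℝ,
        AlgCurv R ∧ SecGE R (-κ) ∧
        RicLE (EuclideanSpace.basisFun (Fin 6) ℝ) R (-(879 / 250 * κ)) ∧
        0 < Hopf6.gbc (EuclideanSpace.basisFun (Fin 6) ℝ) R) ∧
    -- the sign of the integral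
    (∀ (M : Type) [MeasurableSpace M] (μ : Measure M) (K : CurvField M) (κ : M → ℝ), μ ≠ 0 →
      (∀ p, 0 < κ p ∧ SecGE (K.R p) (-(κ p)) ∧ RicLE (K.e p) (K.R p) (-(353 / 100 * κ p))) →
        Integrable K.gbc μ → ∫ p, K.gbc p ∂μ < 0) := by
  have hpt : ∀ (V : Type) [NormedAddCommGroup V] [InnerProductSpace ℝ V]
      (e : OrthonormalBasis (Fin 6) ℝ V) (R : V → V → V → V → ℝ), AlgCurv R →
      ∀ κ : ℝ, 0 < κ → SecGE R (-κ) → RicLE e R (-(353 / 100 * κ)) →
        Hopf6.gbc e R ≤ -(1 / 100 * roundGB κ) ∧ Hopf6.gbc e R < 0 := by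
    intro V _ _ e R hR κ hκ h hr
    have h1 := ric_point_neg e hR hκ h hr
    refine ⟨h1, lt_of_le_of_lt h1 ?_⟩
    have := roundGB_pos hκ
    linarith
  refine ⟨hpt, fun κ hκ => nearly_sharp hκ, ?_⟩
  intro M _ μ K κ hμ h hint
  have hneg : ∀ p, K.gbc p < 0 := fun p =>
    (hpt (K.V p) (K.e p) (K.R p) (K.curv p) (κ p) (h p).1 (h p).2.1 (h p).2.2).2
  have hint' : Integrable (fun p => -(K.gbc p)) μ := hint.neg
  have h0' : 0 ≤ fun p => -(K.gbc p) := fun p => by
    have := hneg p
    simp only [Pi.zero_apply]
    linarith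
  have h2 : 0 < ∫ p, -(K.gbc p) ∂μ := by
    rw [integral_pos_iff_support_of_nonneg h0' hint']
    have hs : Function.support (fun p => -(K.gbc p)) = Set.univ := by
      ext p
      simp only [Function.mem_support, Set.mem_univ, iff_true]
      have := hneg p
      intro h0
      linarith
    rw [hs]
    exact pos_iff_ne_zero.2 (by simpa using hμ)
  rw [integral_neg] at h2
  linarith

end Pool.Agent.Results.MP_9d0d86_gt.RicciPinchedDimSix
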